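import Pool.Agent.H78Z.AE.G

open MeasureTheory Filter Pool.Agent.H78Z.AE

/-- Negative answer to Q1: in hyperbolic three-space, for every intensity, the dual graph of the
Poisson-Voronoi tessellation almost surely has anchored expansion constant zero. -/
theorem Pool.Agent.Results.MP_2c2d1a_pr.ANoExpansion.result
    (lam : ℝ) (hlam : 0 < lam) (Ω : Type) [MeasurableSpace Ω] (P : Measure Ω)
    [IsProbabilityMeasure P] (Pi : Ω → Set (ℝ × ℝ × ℝ)) (h : IsPoissonPP P lam Pi) :
    ∀ᵐ ω ∂P, (Pi ω).Nonempty ∧ (∀ v, ((vorGraph (Pi ω)).neighborSet v).Finite) ∧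
      ∀ ρ, Tendsto (isoInf (vorGraph (Pi ω)) ρ) atTop (nhds 0) :=
  main h hlam
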